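import Pool.Agent.W2helper2.RG.Stm1

/-!
# Project RG, piece CYC: the `3`-adic cyclotomic character
-/

set_option autoImplicit false
set_option linter.unusedSectionVars false

namespace Pool.Agent.W2helper89.RG

open Pool.Agent.TH841.SH.D (Gal Pt act)
open Pool.Agent.W2helper2.RG

open scoped Classical

section
variable {k : Type} [Field k]

instance enough [CharZero k] (i : ℕ) : HasEnoughRootsOfUnity (AlgebraicClosure k) (3 ^ i) := by
  have : NeZero ((3 ^ i : ℕ) : AlgebraicClosure k) :=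
    ⟨by push_cast; exact pow_ne_zero _ three_ne_zero⟩
  infer_instance

lemma cyc_spec [CharZero k] (σ : Gal k) {n : ℕ} {t : AlgebraicClosure k} (ht : t ^ 3 ^ n = 1) :
    σ t = t ^ (((cyc k σ : ℤ_[3]ˣ) : ℤ_[3]).toZModPow n).val :=
  cyclotomicCharacter.spec (L := AlgebraicClosure k) 3 (n := n)
    (MulSemiringAction.toRingAut (Gal k) (AlgebraicClosure k) σ) t ht

lemma cyc_cont [CharZero k] : Continuous (cyc k) :=
  cyclotomicCharacter.continuous 3 k (AlgebraicClosure k)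

lemma dvd_iff_ker (z : ℤ_[3]) : (3 : ℤ_[3]) ∣ z ↔ PadicInt.toZModPow 1 z = 0 := by
  have h1 : PadicInt.toZModPow 1 z = 0 ↔ z ∈ RingHom.ker (PadicInt.toZModPow (p := 3) 1) := Iff.rfl
  rw [h1, PadicInt.ker_toZModPow, Ideal.mem_span_singleton]
  have e : ((3 : ℕ) : ℤ_[3]) ^ 1 = 3 := by norm_num
  rw [e]

lemma cyc_three [CharZero k] {θ : AlgebraicClosure k} (hθ : θ ^ 2 = -3) (σ : Gal k)
    (hs : σ θ = θ) : (3 : ℤ_[3]) ∣ ((cyc k σ : ℤ_[3]ˣ) : ℤ_[3]) - 1 := by
  set ω : AlgebraicClosure k := (θ - 1) / 2 with hω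
  have h3 : ω ^ 3 = 1 := by
    have e : ω ^ 3 = (θ ^ 2 * θ - 3 * θ ^ 2 + 3 * θ - 1) / 8 := by
      rw [hω]
      ring
    rw [e, hθ]
    ring
  have hsω : σ ω = ω := by
    rw [hω, map_div₀, map_sub, map_one, hs, map_ofNat]
  have hω0 : ω ≠ 0 := by
    rintro h
    rw [h] at h3
    norm_num at h3
  have hω1 : ω ≠ 1 := by
    intro h
    have h5 : θ = 3 := by
      have : θ = 2 * ω + 1 := by rw [hω]; ring
      rw [this, h]
      norm_num
    rw [h5] at hθ
    norm_num at hθ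
  have h1 := cyc_spec σ (n := 1) (t := ω) (by rw [pow_one]; exact h3)
  have hu : IsUnit (((cyc k σ : ℤ_[3]ˣ) : ℤ_[3]).toZModPow 1) := (cyc k σ).isUnit.map _
  have h01 : ∀ z : ZMod (3 ^ 1), IsUnit z → z = 1 ∨ z = -1 := by decide
  rcases h01 _ hu with h2 | h2
  · rw [dvd_iff_ker, map_sub, map_one, h2, sub_self]
  · exfalso
    rw [h2] at h1
    have : ((-1 : ZMod (3 ^ 1))).val = 2 := by decide
    rw [this, hsω] at h1
    apply hω1
    have h4 : ω * (ω - 1) = 0 := by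
      have : ω * (ω - 1) = ω ^ 2 - ω := by ring
      rw [this, ← h1, sub_self]
    rcases mul_eq_zero.1 h4 with h | h
    · exact absurd h hω0
    · exact sub_eq_zero.1 h

end

section
variable {p : ℕ} [Fact p.Prime]

lemma nrm (τ : PadicAlgCl p ≃ₐ[ℚ_[p]] PadicAlgCl p) (x : PadicAlgCl p) : ‖τ x‖ = ‖x‖ := by
  rw [← PadicAlgCl.spectralNorm_eq, ← PadicAlgCl.spectralNorm_eq]
  exact (spectralNorm_eq_of_equiv τ x).symm

lemma norm_three (hp : p ≠ 3) : ‖(3 : PadicAlgCl p)‖ = 1 := by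
  have hpp : p.Prime := Fact.out
  have h : ¬ p ∣ 3 := fun h => hp ((Nat.prime_dvd_prime_iff_eq hpp Nat.prime_three).1 h)
  have h1 : ‖((3 : ℚ_[p]) : PadicAlgCl p)‖ = ‖(3 : ℚ_[p])‖ := PadicAlgCl.norm_extends p 3
  have h2 : ((3 : ℚ_[p]) : PadicAlgCl p) = 3 := map_ofNat (algebraMap ℚ_[p] (PadicAlgCl p)) 3
  rw [h2] at h1
  rw [h1]
  have h3 : ‖((3 : ℕ) : ℚ_[p])‖ = 1 := by
    rw [Padic.norm_natCast_eq_one_iff]
    exact (hpp.coprime_iff_not_dvd.2 h)
  exact_mod_cast h3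

/-- the roots of unity are fixed by the inertia groups of the primes `p ≠ 3` -/
lemma root_fix (hp : p ≠ 3) {τ : PadicAlgCl p ≃ₐ[ℚ_[p]] PadicAlgCl p}
    (hin : ∀ z : PadicAlgCl p, ‖z‖ ≤ 1 → ‖τ z - z‖ < 1) (n : ℕ) :
    ∀ z : PadicAlgCl p, z ^ 3 ^ n = 1 → τ z = z := by
  intro z hz
  have hz0 : z ≠ 0 := by
    rintro rfl
    rw [zero_pow (by positivity)] at hz
    exact zero_ne_one hz
  have hz1 : ‖z‖ = 1 := by
    have h1 := congrArg norm hz
    rw [norm_pow, norm_one] at h1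
    exact (pow_eq_one_iff_of_nonneg (norm_nonneg _) (by positivity)).1 h1
  set u := τ z / z with hu
  have hu1 : u ^ 3 ^ n = 1 := by
    rw [hu, div_pow, ← map_pow, hz, map_one, div_one]
  have hu2 : ‖u - 1‖ < 1 := by
    have h1 := hin z hz1.le
    have e : u - 1 = (τ z - z) / z := by rw [hu]; field_simp
    rw [e, norm_div, hz1, div_one]
    exact h1
  have hun : ‖u‖ = 1 := by rw [hu, norm_div, nrm, hz1, div_one]
  have key : ∀ m : ℕ, u ^ 3 ^ m = 1 → u = 1 := by
    intro m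
    induction m with
    | zero =>
      intro h
      simpa using h
    | succ m ih =>
      intro h
      apply ih
      have h1 : (u ^ 3 ^ m) ^ 3 = 1 := by rw [← pow_mul, ← pow_succ, h]
      have h3 : ‖u ^ 3 ^ m - 1‖ < 1 := by
        have h4 : u ^ 3 ^ m - 1 = (u - 1) * ∑ i ∈ Finset.range (3 ^ m), u ^ i := by
          rw [mul_comm, geom_sum_mul]
        rw [h4, norm_mul]
        have h5 : ‖∑ i ∈ Finset.range (3 ^ m), u ^ i‖ ≤ 1 := by
          apply IsUltrametricDist.norm_sum_le_of_forall_le_of_nonneg (by norm_num)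
          intro i _
          rw [norm_pow, hun, one_pow]
        calc ‖u - 1‖ * _ ≤ ‖u - 1‖ * 1 := mul_le_mul_of_nonneg_left h5 (norm_nonneg _)
          _ < 1 := by rwa [mul_one]
      by_contra hne
      set d := u ^ 3 ^ m - 1 with hd
      have hd0 : d ≠ 0 := sub_ne_zero.2 hne
      have h6 : d * (3 + 3 * d + d ^ 2) = 0 := by
        have e : u ^ 3 ^ m = 1 + d := by rw [hd]; ring
        rw [e] at h1
        linear_combination h1
      have h7 : (3 : PadicAlgCl p) = -(d * (3 + d)) := by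
        rcases mul_eq_zero.1 h6 with h | h
        · exact absurd h hd0
        · linear_combination h
      have h8 : ‖(3 : PadicAlgCl p)‖ < 1 := by
        rw [h7, norm_neg, norm_mul]
        have h9 : ‖(3 : PadicAlgCl p) + d‖ ≤ 1 := by
          refine (IsUltrametricDist.norm_add_le_max _ _).trans ?_
          rw [norm_three hp]
          exact max_le le_rfl h3.le
        calc ‖d‖ * ‖(3 : PadicAlgCl p) + d‖ ≤ ‖d‖ * 1 :=
              mul_le_mul_of_nonneg_left h9 (norm_nonneg _)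
          _ < 1 := by rwa [mul_one]
      rw [norm_three hp] at h8
      exact lt_irrefl _ h8
  have h1 := key n hu1
  rw [hu, div_eq_one_iff_eq hz0] at h1
  exact h1

lemma cyc_inert {k : Type} [Field k] [CharZero k] (hp : p ≠ 3)
    {ι : AlgebraicClosure k →+* PadicAlgCl p} {σ : Gal k} (hσ : σ ∈ Inr ι) : cyc k σ = 1 := by
  obtain ⟨τ, hτ, hin⟩ := hσ
  apply Units.ext
  apply PadicInt.ext_of_toZModPow.mp
  intro n
  obtain ⟨ζ, hζ⟩ := HasEnoughRootsOfUnity.exists_primitiveRoot (AlgebraicClosure k) (3 ^ n)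
  have h1 : σ ζ = ζ := by
    apply ι.injective
    rw [← hτ]
    exact root_fix hp hin n (ι ζ) (by rw [← map_pow, hζ.pow_eq_one, map_one])
  have h2 := cyc_spec σ hζ.pow_eq_one
  rw [h1] at h2
  rw [Units.val_one, map_one]
  rcases Nat.eq_zero_or_pos n with rfl | hn
  · have : Subsingleton (ZMod (3 ^ 0)) := by rw [pow_zero]; infer_instance
    exact Subsingleton.elim _ _
  have h3 : (1 : ℕ) < 3 ^ n := Nat.one_lt_pow (by omega) (by norm_num)
  have h4 : (((cyc k σ : ℤ_[3]ˣ) : ℤ_[3]).toZModPow n).val = 1 := by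
    apply hζ.pow_inj (ZMod.val_lt _) h3
    rw [← h2, pow_one]
  have : Fact (1 < 3 ^ n) := ⟨h3⟩
  apply ZMod.val_injective
  rw [h4, ZMod.val_one]

end

theorem p_cyc : P_CYC := by
  intro k _ _
  refine ⟨cyc_cont, fun θ hθ σ hs => cyc_three hθ σ hs, ?_⟩
  intro p _ hp ι σ hσ
  exact cyc_inert hp hσ

end Pool.Agent.W2helper89.RG
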