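import Pool.Agent.W2helper2.RG.Stm1
import Pool.Agent.W528.Ord.Tau

/-!
# Project RG, piece PL: embeddings and primes
-/

set_option autoImplicit false
set_option linter.unusedSectionVars false

namespace Pool.Agent.W2helper89.RG.PL

open NumberField IsDedekindDomain
open Pool.Agent.W2helper2.RG (Cmp P_PL)
open Pool.Agent.W528.Ord (norm_tau_le Qt mem_Qt Qt_prime p_mem_Qt exists_tau)

open scoped Classical

section
variable {F L : Type} [Field F] [NumberField F] [Field L] [NumberField L] [Algebra F L]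
  {p : ℕ} [Fact p.Prime]

/-- the map of the rings of integers -/
noncomputable def em (e : L →ₐ[F] AlgebraicClosure F) : 𝓞 L →+* 𝓞 (AlgebraicClosure F) :=
  RingOfIntegers.mapRingHom e.toRingHom

lemma em_coe (e : L →ₐ[F] AlgebraicClosure F) (x : 𝓞 L) :
    ((em e x : 𝓞 (AlgebraicClosure F)) : AlgebraicClosure F) = e (x : L) := rfl

lemma le_one (e : L →ₐ[F] AlgebraicClosure F) (ι : AlgebraicClosure F →+* PadicAlgCl p)
    (x : 𝓞 L) : ‖ι (e (x : L))‖ ≤ 1 := by
  rw [← em_coe]
  exact norm_tau_le ι (em e x)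

lemma cmp_of (e : L →ₐ[F] AlgebraicClosure F) (ι : AlgebraicClosure F →+* PadicAlgCl p)
    (w : HeightOneSpectrum (𝓞 L))
    (h : ∀ x : 𝓞 L, x ∈ w.asIdeal ↔ ‖ι (e (x : L))‖ < 1) : Cmp e ι w := by
  have hd1 : ∀ d : 𝓞 L, d ∉ w.asIdeal → ‖ι (e (d : L))‖ = 1 := by
    intro d hd
    rw [h] at hd
    exact le_antisymm (le_one e ι d) (not_lt.1 hd)
  have h1 : ∀ x : L, w.valuation L x ≤ 1 → ‖ι (e x)‖ ≤ 1 := by
    intro x hx
    obtain ⟨n, ⟨d, hd⟩, hnd⟩ := w.exists_primeCompl_mul_eq_of_integer x hx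
    have h2 := congrArg (fun y => ‖ι (e y)‖) hnd
    simp only [map_mul, norm_mul] at h2
    have h3 : ‖ι (e (algebraMap (𝓞 L) L d))‖ = 1 := hd1 d hd
    rw [h3, mul_one] at h2
    rw [h2]
    exact le_one e ι n
  have h2 : ∀ x : L, w.valuation L x < 1 → ‖ι (e x)‖ < 1 := by
    intro x hx
    obtain ⟨n, ⟨d, hd⟩, hnd⟩ := w.exists_primeCompl_mul_eq_of_integer x hx.le
    have hd' : d ∉ w.asIdeal := hd
    have hv := congrArg (w.valuation L) hnd
    rw [map_mul] at hv
    have hvd : w.valuation L (algebraMap (𝓞 L) L d) = 1 :=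
      (w.valuation_eq_one_iff_notMem (K := L)).2 hd'
    rw [hvd, mul_one] at hv
    have hn : n ∈ w.asIdeal := by
      rw [← w.valuation_lt_one_iff_mem (K := L), ← hv]
      exact hx
    have h2 := congrArg (fun y => ‖ι (e y)‖) hnd
    simp only [map_mul, norm_mul] at h2
    have h3 : ‖ι (e (algebraMap (𝓞 L) L d))‖ = 1 := hd1 d hd
    rw [h3, mul_one] at h2
    rw [h2]
    exact (h n).1 hn
  have h3 : ∀ x : L, ‖ι (e x)‖ ≤ 1 ↔ w.valuation L x ≤ 1 := by
    intro x
    refine ⟨fun hx => ?_, h1 x⟩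
    by_contra hc
    rw [not_le] at hc
    have hx0 : x ≠ 0 := by
      rintro rfl
      rw [map_zero] at hc
      exact absurd hc (by simp)
    have h4 : w.valuation L x⁻¹ < 1 := by
      rw [map_inv₀]
      exact inv_lt_one_of_one_lt₀ hc
    have h5 := h2 _ h4
    rw [map_inv₀, map_inv₀, norm_inv] at h5
    have h6 : 0 < ‖ι (e x)‖ := by
      rw [norm_pos_iff]
      exact fun h7 => hx0 ((map_eq_zero_iff e e.injective).1
        ((map_eq_zero_iff ι ι.injective).1 h7))
    rw [inv_lt_one₀ h6] at h5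
    exact absurd hx (not_le.2 h5)
  intro x y
  rcases eq_or_ne y 0 with rfl | hy
  · rw [map_zero, map_zero, norm_zero, map_zero]
    constructor
    · intro h4
      have h5 : ι (e x) = 0 := norm_eq_zero.1 (le_antisymm h4 (norm_nonneg _))
      have h6 : x = 0 := (map_eq_zero_iff e e.injective).1 ((map_eq_zero_iff ι ι.injective).1 h5)
      rw [h6, map_zero]
    · intro h4
      have h5 : w.valuation L x = 0 := le_antisymm h4 zero_le'
      have h6 : x = 0 := (Valuation.zero_iff _).1 h5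
      rw [h6, map_zero, map_zero, norm_zero]
  · have h4 := h3 (x / y)
    rw [map_div₀, map_div₀, map_div₀, norm_div] at h4
    have h6 : 0 < ‖ι (e y)‖ := by
      rw [norm_pos_iff]
      exact fun h7 => hy ((map_eq_zero_iff e e.injective).1
        ((map_eq_zero_iff ι ι.injective).1 h7))
    have h7 : 0 < w.valuation L y := by
      rw [zero_lt_iff]
      exact (Valuation.ne_zero_iff _).2 hy
    rw [div_le_one₀ h6, div_le_one₀ h7] at h4
    exact h4

end

theorem p_pl : P_PL := by
  intro F L _ _ _ _ _ e p _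
  constructor
  · intro w hw
    letI : Algebra (𝓞 L) (𝓞 (AlgebraicClosure F)) := (em e).toAlgebra
    have hint : Algebra.IsIntegral (𝓞 L) (𝓞 (AlgebraicClosure F)) := by
      constructor
      intro x
      have h1 : IsIntegral ℤ x := RingOfIntegers.isIntegral x
      haveI : IsScalarTower ℤ (𝓞 L) (𝓞 (AlgebraicClosure F)) := inferInstance
      exact h1.tower_top
    have hinj : Function.Injective (algebraMap (𝓞 L) (𝓞 (AlgebraicClosure F))) := by
      intro x y hxy
      have h1 := congrArg (fun z : 𝓞 (AlgebraicClosure F) => (z : AlgebraicClosure F)) hxy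
      change e (x : L) = e (y : L) at h1
      exact RingOfIntegers.ext (e.injective h1)
    haveI := w.isMaximal
    obtain ⟨Q, hQ, hQc⟩ := Ideal.exists_ideal_over_maximal_of_isIntegral
      (S := 𝓞 (AlgebraicClosure F)) w.asIdeal (by
        rw [(RingHom.injective_iff_ker_eq_bot _).1 hinj]
        exact bot_le)
    have hpQ : (p : 𝓞 (AlgebraicClosure F)) ∈ Q := by
      have h1 : (p : 𝓞 L) ∈ Q.comap (algebraMap (𝓞 L) (𝓞 (AlgebraicClosure F))) := by
        rw [hQc]
        exact hw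
      rw [Ideal.mem_comap, map_natCast] at h1
      exact h1
    obtain ⟨ι, hι⟩ := exists_tau (p := p) Q hQ hpQ
    refine ⟨ι, cmp_of e ι w fun x => ?_⟩
    rw [← hQc, Ideal.mem_comap, hι]
    rfl
  · intro ι
    haveI := Qt_prime ι
    have hpr : ((Qt ι).comap (em e)).IsPrime := Ideal.comap_isPrime _ _
    have hpm : (p : 𝓞 L) ∈ (Qt ι).comap (em e) := by
      rw [Ideal.mem_comap, map_natCast]
      exact p_mem_Qt ι
    have hne : (Qt ι).comap (em e) ≠ ⊥ := by
      intro h
      rw [h, Ideal.mem_bot] at hpm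
      exact (Nat.cast_ne_zero.2 (Fact.out : p.Prime).ne_zero) hpm
    let w : HeightOneSpectrum (𝓞 L) := ⟨(Qt ι).comap (em e), hpr, hne⟩
    refine ⟨w, hpm, cmp_of e ι w fun x => ?_⟩
    change x ∈ (Qt ι).comap (em e) ↔ _
    rw [Ideal.mem_comap, mem_Qt, em_coe]

end Pool.Agent.W2helper89.RG.PL
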